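import Pool.Agent.TFB.Att

/-! (AM) with a set `Y` of allowed vertices and a surplus `s` (class K of helper27 / helper40):
`C_Y`: every independent `I ⊆ Y` and `v ∈ I` satisfy `|I| + 1 + s ≤ d(v)`. -/

namespace Pool.Agent.HW43

open List Pool.Agent.TF82 Pool.Agent.TFC Pool.Agent.TFB

universe u

set_option linter.unusedSectionVars false
set_option linter.unusedVariables false

variable {V : Type u} [DecidableEq V]

/-- surplus condition: independent sets inside `Y` -/
def CY [Fintype V] (G : SimpleGraph V) [DecidableRel G.Adj] (Y : Finset V) (s : ℕ) : Prop :=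
  ∀ I : Finset V, I ⊆ Y → G.IsIndepSet (I : Set V) → ∀ v ∈ I,
    I.card + 1 + s ≤ dU G Finset.univ v

theorem att_countY [Fintype V] {G : SimpleGraph V} [DecidableRel G.Adj] {Y : Finset V} {s : ℕ}
    (hC : CY G Y s)
    {j : ℕ} {L : List (List V)} (hM : IsMax G j L) {y : V} (hy : y ∈ unc L) (J : Finset V)
    (hJY : J ⊆ Y) (hJ : G.IsIndepSet (J : Set V)) (hJr : ∀ x ∈ J, Reach G (unc L) y x) {v : V}
    (hv : v ∈ J) :
    J.card + ((att G L y).filter (fun w => prv L w ∈ Y)).card + 1 + s ≤
      dU G Finset.univ v := by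
  have hcov : ∀ w ∈ (att G L y).filter (fun w => prv L w ∈ Y), w ∈ L.flatten :=
    fun w hw => (mem_att.1 (Finset.mem_filter.1 hw).1).1
  have hatt : ∀ w ∈ (att G L y).filter (fun w => prv L w ∈ Y), w ∈ att G L y :=
    fun w hw => (Finset.mem_filter.1 hw).1
  have hcr : ∀ w ∈ (att G L y).filter (fun w => prv L w ∈ Y), ∀ x ∈ J,
      ¬ G.Adj (prv L w) x := by
    intro w hw x hx hadj
    exact att_noins hM hy (hatt w hw)
      (mem_att.2 ⟨prv_mem hM.fam (hcov w hw), x, hJr x hx, hadj⟩)
  have hdis : Disjoint J (((att G L y).filter (fun w => prv L w ∈ Y)).image (prv L)) := by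
    rw [Finset.disjoint_left]
    intro x hx hx'
    obtain ⟨w, hw, rfl⟩ := Finset.mem_image.1 hx'
    exact mem_unc.1 (reach_unc hy (hJr _ hx)) (prv_mem hM.fam (hcov w hw))
  have hcard : (J ∪ ((att G L y).filter (fun w => prv L w ∈ Y)).image (prv L)).card =
      J.card + ((att G L y).filter (fun w => prv L w ∈ Y)).card := by
    rw [Finset.card_union_of_disjoint hdis, Finset.card_image_of_injOn]
    intro a ha b hb hab
    exact prv_inj hM.fam (hcov a ha) (hcov b hb) hab
  rw [← hcard]
  refine hC _ ?_ ?_ v (Finset.mem_union_left _ hv)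
  · intro x hx
    rcases Finset.mem_union.1 hx with hx | hx
    · exact hJY hx
    · obtain ⟨w, hw, rfl⟩ := Finset.mem_image.1 hx
      exact (Finset.mem_filter.1 hw).2
  intro a ha b hb hab
  rw [Finset.mem_coe, Finset.mem_union] at ha hb
  rcases ha with ha | ha
  · rcases hb with hb | hb
    · exact hJ ha hb hab
    · obtain ⟨w, hw, rfl⟩ := Finset.mem_image.1 hb
      exact fun h => hcr w hw a ha h.symm
  · obtain ⟨w, hw, rfl⟩ := Finset.mem_image.1 ha
    rcases hb with hb | hb
    · exact hcr w hw b hb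
    · obtain ⟨w', hw', rfl⟩ := Finset.mem_image.1 hb
      exact att_indep hM hy (hatt w hw) (hatt w' hw')

/-- (AM) with surplus: for an independent `J ⊆ Y` in one component and `v ∈ J`,
`|J| + 1 + s + #{hubs not adjacent to v} ≤ d_Z(v) + #{hubs whose predecessor is not in Y}`. -/
theorem att_mainY [Fintype V] {G : SimpleGraph V} [DecidableRel G.Adj] {Y : Finset V} {s : ℕ}
    (hC : CY G Y s)
    {j : ℕ} {L : List (List V)} (hM : IsMax G j L) {y : V} (hy : y ∈ unc L) (J : Finset V)
    (hJY : J ⊆ Y) (hJ : G.IsIndepSet (J : Set V)) (hJr : ∀ x ∈ J, Reach G (unc L) y x) {v : V}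
    (hv : v ∈ J) :
    J.card + 1 + s + ((att G L y).filter (fun w => ¬ G.Adj v w)).card ≤
      dU G (unc L) v + ((att G L y).filter (fun w => prv L w ∉ Y)).card := by
  have h1 := att_countY hC hM hy J hJY hJ hJr hv
  have h2 := att_deg hy (hJr v hv)
  have h3 := Finset.card_filter_add_card_filter_not (s := att G L y) (fun w => G.Adj v w)
  have h4 := Finset.card_filter_add_card_filter_not (s := att G L y) (fun w => prv L w ∈ Y)
  omega

/-- the hubs whose predecessor is not allowed are at most the forbidden vertices on the family -/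
theorem att_forb [Fintype V] {G : SimpleGraph V} {Y W : Finset V} {j : ℕ} {L : List (List V)}
    (hM : IsMax G j L) {y : V} (hW : ∀ x ∈ L.flatten, x ∉ Y → x ∈ W) :
    ((att G L y).filter (fun w => prv L w ∉ Y)).card ≤
      (W.filter (fun x => x ∈ L.flatten)).card := by
  refine Finset.card_le_card_of_injOn (prv L) ?_ ?_
  · intro w hw
    have hw := Finset.mem_coe.1 hw
    rw [Finset.mem_filter] at hw
    have h1 := prv_mem hM.fam (mem_att.1 hw.1).1
    exact Finset.mem_coe.2 (Finset.mem_filter.2 ⟨hW _ h1 hw.2, h1⟩)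
  · intro a ha b hb hab
    have ha := (Finset.mem_filter.1 (Finset.mem_coe.1 ha)).1
    have hb := (Finset.mem_filter.1 (Finset.mem_coe.1 hb)).1
    exact prv_inj hM.fam (mem_att.1 ha).1 (mem_att.1 hb).1 hab

end Pool.Agent.HW43
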