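import Pool.Agent.HW43.Vhub

/-! CASE Y or CASE X (helper75, helper85): for two hubs `y`, `y'` of a component and the arc `A`
of the longest cycle between them: no cycle runs exactly through `A`, or the component has an
independent set without deficit. -/

namespace Pool.Agent.HW43

open List Pool.Agent.TF82 Pool.Agent.TFC Pool.Agent.TFB Pool.Agent.H62P

universe u

set_option linter.unusedSectionVars false
set_option linter.unusedVariables false

variable {V : Type u} [DecidableEq V]

open Classical in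
/-- CASE Y / CASE X. `A'` is any arc such that the rest of the cycle is `B` (from `y'` to `y`). -/
theorem case_xy [Fintype V] {G : SimpleGraph V} [DecidableRel G.Adj] {W : Finset V}
    {c A B : List V} (hcc : ∀ x, x ∈ c ↔ x ∈ A ++ B) (hAB : (A ++ B).Nodup) {y0 y y' s : V}
    (hy0 : y0 ∈ unc [c]) (hB : Seg G B y' y) (hs : s ∉ comp G [c] y0)
    (hIH : PW (vG G (comp G [c] y0) s (fun v => G.Adj v y ∧ G.Adj v y'))
      (insert s (comp G [c] y0)) (insert s (W ∩ comp G [c] y0)))
    {τ : ℕ} (hτ : ¬ CovW G (comp G [c] y0) (W ∩ comp G [c] y0) τ)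
    {L' : List (List V)} (hL' : Fam G L')
    (hL'1 : ∀ x ∈ L'.flatten, x ∉ c ∧ x ∉ comp G [c] y0)
    (hL'2 : ∀ x, x ∉ c → x ∉ comp G [c] y0 → x ∉ W → x ∈ L'.flatten)
    (hopt : ¬ CovW G Finset.univ W (τ + 1 + L'.length)) :
    (∀ cA, CycL G cA → ¬ cA.Perm A) ∨
    ∃ I : Finset V, I ⊆ comp G [c] y0 \ W ∧ G.IsIndepSet (I : Set V) ∧ I.card = τ + 1 ∧
      ∑ v ∈ I, (dU G (comp G [c] y0) v + (if G.Adj v y ∧ G.Adj v y' then 1 else 0)) ≤
        (comp G [c] y0).card := by
  by_cases hcase : ∀ cA, CycL G cA → ¬ cA.Perm A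
  · exact Or.inl hcase
  right
  push Not at hcase
  obtain ⟨cA, hcA, hperm⟩ := hcase
  suffices hno : ¬ CovW (vG G (comp G [c] y0) s (fun v => G.Adj v y ∧ G.Adj v y'))
      (insert s (comp G [c] y0)) (insert s (W ∩ comp G [c] y0)) τ by
    obtain ⟨I, h1, h2, h3, h4⟩ := vhub_sum hs hIH hno
    refine ⟨I, h1, h2, h3, ?_⟩
    convert h4
  intro hcov
  have hunc : ∀ x, x ∈ comp G [c] y0 → x ∉ c := by
    intro x hx hxc
    exact mem_unc.1 (mem_comp.1 hx).1 (by simpa using hxc)
  rcases vhub_cov hs hcov with h | ⟨Q, a, b, L, hQ, hQn, hQ2, ha, hb, hQZ, hL, hLlen, hLZ, hLcov⟩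
  · exact hτ h
  · have hfam : Fam G (L ++ L') := by
      refine ⟨?_, ?_⟩
      · intro d hd
        rcases List.mem_append.1 hd with h | h
        · exact hL.cyc d h
        · exact hL'.cyc d h
      · rw [List.flatten_append, List.nodup_append]
        refine ⟨hL.nod, hL'.nod, ?_⟩
        rintro x hx z hz rfl
        exact (hL'1 x hz).2 (hLZ x hx).1
    have hclose := vhub_close (G := G) (U := Finset.univ) (W := W) (y := y) (y' := y') hB hAB hcA
      (fun x => hperm.mem_iff) hQ hQn ha.1.symm hb.2
      (fun x hx h => hunc x (hQZ x hx) ((hcc x).2 h)) (by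
        have : 1 ≤ B.length := by
          rcases B with _ | ⟨z, B⟩
          · have := hB.hd
            simp at this
          · simp
        omega) hfam (by
        intro x hx
        rw [List.flatten_append, List.mem_append] at hx
        rcases hx with h | h
        · exact ⟨fun h2 => hunc x (hLZ x h).1 ((hcc x).2 h2), (hLZ x h).2⟩
        · exact ⟨fun h2 => (hL'1 x h).1 ((hcc x).2 h2), fun h2 => (hL'1 x h).2 (hQZ x h2)⟩)
      (fun x _ => Finset.mem_univ x) (fun x _ => Finset.mem_univ x)
      (fun x _ => Finset.mem_univ x) (by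
        intro x _ hxW
        by_cases hxc : x ∈ c
        · exact Or.inl ((hcc x).1 hxc)
        · by_cases hxZ : x ∈ comp G [c] y0
          · rcases hLcov x hxZ hxW with h | h
            · exact Or.inr (Or.inl h)
            · refine Or.inr (Or.inr ?_)
              rw [List.flatten_append, List.mem_append]
              exact Or.inl h
          · refine Or.inr (Or.inr ?_)
            rw [List.flatten_append, List.mem_append]
            exact Or.inr (hL'2 x hxc hxZ hxW))
    refine hopt (hclose.mono ?_)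
    rw [List.length_append]
    omega

open Classical in
/-- the number of hubs adjacent to `v` is at most `H - 1`, one more if `v` sees both `y` and `y'` -/
theorem hubs_le [Fintype V] {G : SimpleGraph V} [DecidableRel G.Adj] {L : List (List V)}
    {y0 y y' v : V} (hy0 : y0 ∈ unc L) (hy : y ∈ att G L y0) (hy' : y' ∈ att G L y0)
    (hv : v ∈ comp G L y0) :
    dU G Finset.univ v + 1 ≤ dU G (comp G L y0) v + (att G L y0).card +
      (if G.Adj v y ∧ G.Adj v y' then 1 else 0) := by
  have h1 := att_deg (G := G) hy0 (mem_comp.1 hv).2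
  rw [dU_comp hv]
  have h2 := Finset.card_filter_add_card_filter_not (s := att G L y0) (fun w => G.Adj v w)
  by_cases hp : G.Adj v y ∧ G.Adj v y'
  · rw [if_pos hp]
    omega
  · rw [if_neg hp]
    have h3 : 1 ≤ ((att G L y0).filter (fun w => ¬ G.Adj v w)).card := by
      rw [Finset.one_le_card]
      by_cases h : G.Adj v y
      · exact ⟨y', Finset.mem_filter.2 ⟨hy', fun h' => hp ⟨h, h'⟩⟩⟩
      · exact ⟨y, Finset.mem_filter.2 ⟨hy, h⟩⟩
    omega

open Classical in
/-- no deficit: `Σ d_G(v) ≤ |Z| + |I| (H - 1)` -/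
theorem sum_le [Fintype V] {G : SimpleGraph V} [DecidableRel G.Adj] {L : List (List V)}
    {y0 y y' : V} (hy0 : y0 ∈ unc L) (hy : y ∈ att G L y0) (hy' : y' ∈ att G L y0)
    {I : Finset V} (hI : ∀ v ∈ I, v ∈ comp G L y0)
    (hsum : ∑ v ∈ I, (dU G (comp G L y0) v + (if G.Adj v y ∧ G.Adj v y' then 1 else 0)) ≤
        (comp G L y0).card) :
    ∑ v ∈ I, dU G Finset.univ v ≤ (comp G L y0).card + I.card * ((att G L y0).card - 1) := by
  have hH : 1 ≤ (att G L y0).card := Finset.card_pos.2 ⟨y, hy⟩
  have h1 : ∑ v ∈ I, dU G Finset.univ v ≤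
      ∑ v ∈ I, ((dU G (comp G L y0) v + (if G.Adj v y ∧ G.Adj v y' then 1 else 0)) +
        ((att G L y0).card - 1)) := by
    apply Finset.sum_le_sum
    intro v hv
    have := hubs_le hy0 hy hy' (hI v hv)
    omega
  rw [Finset.sum_add_distrib, Finset.sum_const, smul_eq_mul] at h1
  omega

end Pool.Agent.HW43
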