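import Pool.Agent.H88C.Main
import Pool.Agent.TFG.Win

/-! The graph side of `H88C.Dat`: a single longest cycle and links through components. -/

set_option autoImplicit false

namespace Pool.Agent.HW43.Dt

open List Pool.Agent.TF82 Pool.Agent.TFC Pool.Agent.TFB Pool.Agent.TFN Pool.Agent.TFG

universe u

set_option linter.unusedSectionVars false
set_option linter.unusedVariables false

variable {V : Type u} [DecidableEq V]

theorem card_C {G : SimpleGraph V} {F : List (List V)} (hF : Fam G F) :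
    F.flatten.toFinset.card = F.flatten.length := List.toFinset_card_of_nodup hF.nod

theorem hret {G : SimpleGraph V} {F : List (List V)} (hF : Fam G F) (hF1 : F.length = 1)
    {v : V} (hv : v ∈ F.flatten.toFinset) (i : ℕ) (h1 : 1 ≤ i)
    (h2 : i < F.flatten.toFinset.card) : (prv F)^[i] v ≠ v := by
  rw [card_C hF] at h2
  exact iter_ne_one hF hF1 (List.mem_toFinset.1 hv) i h1 h2

theorem htr {G : SimpleGraph V} {F : List (List V)} (hF : Fam G F) (hF1 : F.length = 1)
    {v w : V} (hv : v ∈ F.flatten.toFinset) (hw : w ∈ F.flatten.toFinset) :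
    ∃ i < F.flatten.toFinset.card, (prv F)^[i] v = w := by
  classical
  have hv' := List.mem_toFinset.1 hv
  have key : ∀ i j : ℕ, i < j → j < F.flatten.toFinset.card →
      (prv F)^[i] v ≠ (prv F)^[j] v := by
    intro i j hij hj h
    have e1 : j = i + (j - i) := by omega
    have e : (prv F)^[j] v = (prv F)^[i] ((prv F)^[j - i] v) := by
      rw [← Function.iterate_add_apply, ← e1]
    rw [e] at h
    have h1 := iter_inj hF hv' (iter_mem hF hv' _) i h
    exact hret hF hF1 hv (j - i) (by omega) (by omega) h1.symm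
  have hsub : (Finset.range F.flatten.toFinset.card).image (fun i => (prv F)^[i] v) ⊆
      F.flatten.toFinset := by
    intro x hx
    obtain ⟨i, -, rfl⟩ := Finset.mem_image.1 hx
    exact List.mem_toFinset.2 (iter_mem hF hv' i)
  have hcard : ((Finset.range F.flatten.toFinset.card).image (fun i => (prv F)^[i] v)).card =
      F.flatten.toFinset.card := by
    rw [Finset.card_image_of_injOn, Finset.card_range]
    intro i hi j hj hij
    rw [Finset.mem_coe, Finset.mem_range] at hi hj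
    rcases lt_trichotomy i j with h | h | h
    · exact absurd hij (key i j h hj)
    · exact h
    · exact absurd hij.symm (key j i h hi)
  have heq := Finset.eq_of_subset_of_card_le hsub (by rw [hcard])
  rw [← heq] at hw
  obtain ⟨i, hi, h⟩ := Finset.mem_image.1 hw
  exact ⟨i, Finset.mem_range.1 hi, h⟩

/-- linked hubs are far apart, so the cycle is long -/
theorem link_lt [Fintype V] {G : SimpleGraph V} {F : List (List V)} (hM : IsMax G F.length F)
    (hF1 : F.length = 1) {y s t : V} {n : ℕ} (hs : s ∈ F.flatten) (ht : t ∈ F.flatten)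
    (hst : s ≠ t) (hl : Link G F y n s t) : n + 1 < F.flatten.length := by
  obtain ⟨i, hi, h⟩ := htr hM.fam hF1 (List.mem_toFinset.2 hs) (List.mem_toFinset.2 ht)
  rw [card_C hM.fam] at hi
  by_contra hcon
  exact link_far hM hs hl.symm hst i (by omega) h

theorem noRet [Fintype V] {G : SimpleGraph V} {F : List (List V)} (hF : Fam G F)
    (hF1 : F.length = 1) {n : ℕ} (hn : n < F.flatten.length) : NoRet F n :=
  fun x hx i h1 h2 => iter_ne_one hF hF1 hx i h1 (by omega)

theorem r1 [Fintype V] {G : SimpleGraph V} {F : List (List V)} (hM : IsMax G F.length F)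
    {y s t : V} {l : ℕ} (hl : Link G F y l s t) (hs : s ∈ F.flatten) (hst : s ≠ t) (i : ℕ)
    (hi : i ≤ l) : (prv F)^[i] s ≠ t := link_far hM hs hl.symm hst i hi

theorem r3 [Fintype V] {G : SimpleGraph V} {F : List (List V)} (hM : IsMax G F.length F)
    (hF1 : F.length = 1) {y s t : V} {l : ℕ} (hl : Link G F y l s t) (hs : s ∈ F.flatten)
    (ht : t ∈ F.flatten) (hst : s ≠ t) (a c : ℕ) (hac : a + c < l) :
    ¬ G.Adj ((prv F)^[a + 1] s) ((prv F)^[c + 1] t) :=
  link_nonadj hM hs ht hst hl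
    (noRet hM.fam hF1 (by have := link_lt hM hF1 hs ht hst hl; omega)) hac

theorem r2 [Fintype V] {G : SimpleGraph V} {F : List (List V)} (hM : IsMax G F.length F)
    (hF1 : F.length = 1) {y y' : V} (hy : y ∈ unc F) (hy' : y' ∈ unc F)
    (hyy : y' ∉ comp G F y) {l l' : ℕ} {s t : V} {a c : ℕ} (hl : Link G F y l s t)
    (hs : s ∈ F.flatten) (ht : t ∈ F.flatten) (hst : s ≠ t) (ha1 : 1 ≤ a) (ha : a ≤ l)
    (hc1 : 1 ≤ c) (hc : c ≤ l) (hl' : Link G F y' l' ((prv F)^[a] s) ((prv F)^[c] t)) :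
    l + l' + 2 ≤ a + c := by
  obtain ⟨a, rfl⟩ : ∃ a', a = a' + 1 := ⟨a - 1, by omega⟩
  obtain ⟨c, rfl⟩ : ∃ c', c = c' + 1 := ⟨c - 1, by omega⟩
  have hlt := link_lt hM hF1 hs ht hst hl
  have hR : NoRet F l := noRet hM.fam hF1 (by omega)
  have f1 := link_far hM hs hl.symm hst
  have f2 := link_far hM ht hl hst.symm
  obtain ⟨Q, x1, x2, h1, h2, h3, h4, h5, h6⟩ := hl
  obtain ⟨Q', x1', x2', g1, g2, g3, g4, g5, g6⟩ := hl'
  have hn : (Q' ++ Q).Nodup := by
    rw [List.nodup_append]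
    refine ⟨g2, h2, ?_⟩
    rintro z hz' _ hz rfl
    exact hyy (mem_comp.2 ⟨hy', Relation.ReflTransGen.trans (mem_comp.1 (h3 z hz)).2
      (Reach.symm (mem_comp.1 (g3 z hz')).2)⟩)
  have := route2 hM hs ht hst (a := a) (b := c) (X := Q') (Y := Q)
    (fun i hi hia => ⟨hR s hs i hi (by omega), f1 i (by omega)⟩)
    (fun i hi hib => ⟨hR t ht i hi (by omega), f2 i (by omega)⟩)
    (chain_ends g1.ch g1.hd g1.lt g5 g6.symm)
    (chain_ends h1.ch h1.hd h1.lt h5 h6.symm) hn
    (fun x hx => by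
      rcases List.mem_append.1 hx with hx | hx
      · exact mem_unc.1 (mem_comp.1 (g3 x hx)).1
      · exact mem_unc.1 (mem_comp.1 (h3 x hx)).1)
  omega

/-- the data of the count on a single longest cycle -/
noncomputable def dat [Fintype V] (G : SimpleGraph V) (F : List (List V))
    (hM : IsMax G F.length F) (hF1 : F.length = 1) (W K : Finset V)
    (hKu : ∀ y ∈ K, y ∈ unc F) (hKd : ∀ y ∈ K, ∀ y' ∈ K, y ≠ y' → y' ∉ comp G F y)
    (A str : V → V → Prop) (n : V → V → ℕ) (m : V → ℕ)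
    (hN : K.card + 2 + (W ∩ F.flatten.toFinset).card < F.flatten.toFinset.card)
    (hm : ∀ y ∈ K, 1 ≤ m y) (hnm : ∀ y ∈ K, ∀ v ∈ F.flatten.toFinset, n y v ≤ m y)
    (hns : ∀ y ∈ K, ∀ v ∈ F.flatten.toFinset, 1 ≤ n y v → str y v)
    (hsA : ∀ y ∈ K, ∀ v ∈ F.flatten.toFinset, str y v → A y v)
    (htwo : ∀ y ∈ K, ∃ v ∈ F.flatten.toFinset, ∃ w ∈ F.flatten.toFinset,
      v ≠ w ∧ A y v ∧ A y w)
    (L0 : ∀ y ∈ K, ∀ v ∈ F.flatten.toFinset, ∀ w ∈ F.flatten.toFinset, v ≠ w → str y v →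
      A y w → Link G F y (K.card + 2 + (W ∩ F.flatten.toFinset).card) v w)
    (F1 : ∀ y ∈ K, ∀ v ∈ F.flatten.toFinset, ∀ w ∈ F.flatten.toFinset, v ≠ w → 1 ≤ n y v →
      A y w → Link G F y (∑ z ∈ K.erase y, m z + 1 + n y v +
        (W ∩ F.flatten.toFinset).card) v w)
    (F2 : ∀ y ∈ K, ∀ v ∈ F.flatten.toFinset, ∀ w ∈ F.flatten.toFinset, v ≠ w → 2 ≤ n y v →
      1 ≤ n y w → Link G F y (2 * ∑ z ∈ K.erase y, m z + n y v + n y w +
        (W ∩ F.flatten.toFinset).card) v w) : H88C.Dat V V where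
  C := F.flatten.toFinset
  b := prv F
  K := K
  W := W
  Adj := G.Adj
  A := A
  str := str
  n := n
  m := m
  Lk := fun y l s t => Link G F y l s t
  hbC := fun v hv => List.mem_toFinset.2 (prv_mem hM.fam (List.mem_toFinset.1 hv))
  hinj := fun v hv w hw h => prv_inj hM.fam (List.mem_toFinset.1 hv) (List.mem_toFinset.1 hw) h
  hret := fun v hv i h1 h2 => hret hM.fam hF1 hv i h1 h2
  htr := fun v hv w hw => htr hM.fam hF1 hv hw
  hN := hN
  hsymm := fun _ _ _ _ h => h.symm
  hmono := fun _ _ _ _ _ hl h => h.mono hl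
  R1 := fun y l s t hl hs ht hst i hi => r1 hM hl (List.mem_toFinset.1 hs) hst i hi
  R3 := fun y l s t hl hs ht hst a c hac =>
    r3 hM hF1 hl (List.mem_toFinset.1 hs) (List.mem_toFinset.1 ht) hst a c hac
  R2 := fun y hy y' hy' hyy l l' s t a c hl hs ht hst ha1 ha hc1 hc hl' =>
    r2 hM hF1 (hKu y hy) (hKu y' hy') (hKd y hy y' hy' hyy) hl (List.mem_toFinset.1 hs)
      (List.mem_toFinset.1 ht) hst ha1 ha hc1 hc hl'
  hm := hm
  hnm := hnm
  hns := hns
  hsA := hsA
  htwo := htwo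
  L0 := L0
  F1 := F1
  F2 := F2

end Pool.Agent.HW43.Dt
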