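import Pool.Agent.HW43.Dat
import Pool.Agent.H62P.Pkg
import Pool.Agent.H93L.LinksP
import Pool.Agent.H72N.RichC

/-! The vertex `p` of the longest cycle and the final inequality of the 2-connected step. -/

set_option autoImplicit false

namespace Pool.Agent.HW43.Dt

open List Pool.Agent.TF82 Pool.Agent.TFC Pool.Agent.TFB Pool.Agent.EG31
  Pool.Agent.H18C Pool.Agent.H62P

universe u

set_option linter.unusedSectionVars false
set_option linter.unusedVariables false

variable {V : Type u} [DecidableEq V]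

/-- the components `y ∈ K` of the complement of the longest cycle, with their packages -/
structure Lv [Fintype V] (G : SimpleGraph V) [DecidableRel G.Adj] (F : List (List V))
    (W K : Finset V) (SS : V → Finset V) (bb ff : V → ℕ) (II : V → Finset V) : Prop where
  hM : IsMax G F.length F
  hF1 : F.length = 1
  un : ∀ y ∈ K, y ∈ unc F
  dis : ∀ y ∈ K, ∀ y' ∈ K, y ≠ y' → y' ∉ comp G F y
  con : ∀ y ∈ K, Conn1 G (comp G F y)
  sub : ∀ y ∈ K, SS y ⊆ comp G F y
  cw : ∀ y ∈ K, H72N.CWg G (comp G F y) (SS y) (bb y)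
  pkg : ∀ y ∈ K, Pkg G (comp G F y) (SS y) (bb y) (ff y) (II y)
  ne : ∀ y ∈ K, (II y).Nonempty
  bb_le : ∀ y ∈ K, ∑ z ∈ K.erase y, (II z).card + (W ∩ F.flatten.toFinset).card ≤ bb y
  clean : ∀ y ∈ K, ∀ v ∈ II y, ∀ w ∈ att G F y, ∃ x ∈ comp G F y, x ≠ v ∧ G.Adj w x
  rich : ∀ y ∈ K, ∀ v ∈ II y, ∀ w ∈ att G F y, G.Adj w v → H72N.Rich G (comp G F y) (SS y) w
  two : ∀ y ∈ K, ∃ v ∈ att G F y, ∃ w ∈ att G F y, v ≠ w

theorem att_of [Fintype V] {G : SimpleGraph V} {F : List (List V)} {y w x : V}
    (hw : w ∈ F.flatten) (hx : x ∈ comp G F y) (h : G.Adj w x) : w ∈ att G F y :=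
  mem_att.2 ⟨hw, x, (mem_comp.1 hx).2, h⟩

theorem att_adj [Fintype V] {G : SimpleGraph V} {F : List (List V)} {y w : V}
    (hy : y ∈ unc F) (hw : w ∈ att G F y) : ∃ x ∈ comp G F y, G.Adj w x := by
  obtain ⟨-, x, hx, h⟩ := mem_att.1 hw
  exact ⟨x, mem_comp.2 ⟨reach_unc hy hx, hx⟩, h⟩

theorem link_of_lk [Fintype V] {G : SimpleGraph V} {F : List (List V)} {y s t : V} {n : ℕ}
    (h : H6T.Lk G (Finset.univ \ comp G F y).toList n s t) : TFG.Link G F y n s t := by
  obtain ⟨Q, x1, x2, h1, h2, h3, h4, h5, h6⟩ := h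
  refine ⟨Q, x1, x2, h1, h2, fun z hz => ?_, h4, h5, h6⟩
  have := h3 z hz
  rw [Finset.mem_toList, Finset.mem_sdiff] at this
  by_contra hcon
  exact this ⟨Finset.mem_univ _, hcon⟩

namespace Lv

variable [Fintype V] {G : SimpleGraph V} [DecidableRel G.Adj] {F : List (List V)}
    {W K : Finset V} {SS : V → Finset V} {bb ff : V → ℕ} {II : V → Finset V}

theorem card_le (h : Lv G F W K SS bb ff II) {y : V} (hy : y ∈ K) :
    K.card ≤ ∑ z ∈ K.erase y, (II z).card + 1 := by
  have h1 : (K.erase y).card ≤ ∑ z ∈ K.erase y, (II z).card := by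
    rw [Finset.card_eq_sum_ones]
    exact Finset.sum_le_sum (fun z hz => Finset.card_pos.2 (h.ne z (Finset.mem_of_mem_erase hz)))
  rw [Finset.card_erase_of_mem hy] at h1
  omega

theorem isub (h : Lv G F W K SS bb ff II) {y v : V} (hy : y ∈ K) (hv : v ∈ II y) :
    v ∈ comp G F y := ((h.pkg y hy).good v hv).mem

theorem seen_rich (h : Lv G F W K SS bb ff II) {y v w : V} (hy : y ∈ K) (hv : v ∈ II y)
    (hw : w ∈ F.flatten) (ha : G.Adj w v) : H72N.Rich G (comp G F y) (SS y) w :=
  h.rich y hy v hv w (att_of hw (h.isub hy hv) ha) ha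

theorem rich_att (h : Lv G F W K SS bb ff II) {y w : V} (hw : w ∈ F.flatten)
    (hr : H72N.Rich G (comp G F y) (SS y) w) : w ∈ att G F y := by
  obtain ⟨x, hx, -, -, h1, -⟩ := hr
  exact att_of hw hx h1

theorem l0 (h : Lv G F W K SS bb ff II) {y v w : V} (hy : y ∈ K)
    (hv : H72N.Rich G (comp G F y) (SS y) v) (hw : w ∈ att G F y) :
    TFG.Link G F y (K.card + 2 + (W ∩ F.flatten.toFinset).card) v w := by
  obtain ⟨x, hx, hwx⟩ := att_adj (h.un y hy) hw
  have h1 : TFG.Link G F y (bb y + 3) v w :=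
    H72N.rich_link (h.con y hy) (h.sub y hy) (h.cw y hy) hv hx hwx
  have h2 := h.bb_le y hy
  have h3 := h.card_le hy
  exact h1.mono (by omega)

theorem f1 (h : Lv G F W K SS bb ff II) {y v w : V} (hy : y ∈ K)
    (hv : 1 ≤ ((II y).filter (fun u => G.Adj v u)).card) (hw : w ∈ att G F y) :
    TFG.Link G F y (∑ z ∈ K.erase y, (II z).card + 1 +
      ((II y).filter (fun u => G.Adj v u)).card + (W ∩ F.flatten.toFinset).card) v w := by
  have h1 := H93L.link1P (G := G) (c := (Finset.univ \ comp G F y).toList)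
    (Z := comp G F y) (I := II y) (b := bb y) (s := min 1 (SS y).card) (w := w) (y := v)
    (fun z hz => by simp [hz])
    (fun M hM hne => by
      obtain ⟨v, hv, hvx⟩ := (h.pkg y hy).p1 M hM hne
      exact ⟨v, hv, fun x hx hne => hvx x hx hne⟩)
    (fun v' hv' _ => h.clean y hy v' hv' w hw) (Finset.card_pos.1 hv)
  have h2 := (link_of_lk h1).symm
  have h3 := h.bb_le y hy
  exact h2.mono (by omega)

theorem f2 (h : Lv G F W K SS bb ff II) {y v w : V} (hy : y ∈ K)
    (hv : 2 ≤ ((II y).filter (fun u => G.Adj v u)).card)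
    (hw : 1 ≤ ((II y).filter (fun u => G.Adj w u)).card) :
    TFG.Link G F y (2 * ∑ z ∈ K.erase y, (II z).card +
      ((II y).filter (fun u => G.Adj v u)).card + ((II y).filter (fun u => G.Adj w u)).card +
        (W ∩ F.flatten.toFinset).card) v w := by
  obtain ⟨v2, hv2⟩ := Finset.card_pos.1 hw
  obtain ⟨v1, hv1, hne⟩ := Finset.exists_mem_ne
    (show 1 < ((II y).filter (fun u => G.Adj v u)).card by omega) v2
  rw [Finset.mem_filter] at hv1 hv2
  have h1 := H93L.link2P (G := G) (c := (Finset.univ \ comp G F y).toList)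
    (Z := comp G F y) (I := II y) (b := bb y) (s := min 1 (SS y).card) (w := v) (y := w)
    (fun z hz => by simp [hz])
    (fun M M' hM hM' hne hne' hc => by
      obtain ⟨v, hv, v', hv', h1, h2⟩ := (h.pkg y hy).p2 M hM M' hM' hne hne'
        (fun hh => hc hh.1 hh.2)
      exact ⟨v, hv, v', hv', h1, h2⟩)
    hv1.1 hv2.1 hne hv1.2 hv2.2
  have h3 := h.bb_le y hy
  exact (link_of_lk h1).mono (by omega)

/-- THE VERTEX `p` -/
theorem exists_p (h : Lv G F W K SS bb ff II) (hp : ∃ p ∈ F.flatten, p ∉ W) :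
    ∃ p ∈ F.flatten, p ∉ W ∧ (∀ y ∈ K, ¬ H72N.Rich G (comp G F y) (SS y) p) ∧
      ∀ a : V → ℕ, (∀ y ∈ K, a y ≤ 1) → (∀ y ∈ K, p ∉ att G F y → a y = 0) →
        ∑ y ∈ K, (∑ v ∈ F.flatten.toFinset, ((II y).filter (fun u => G.Adj v u)).card + a y) ≤
          (F.flatten.toFinset.filter (fun z => z ≠ p ∧ ¬ G.Adj p z)).card + K.card := by
  classical
  by_cases hr : ∃ y ∈ K, ∃ v ∈ F.flatten, H72N.Rich G (comp G F y) (SS y) v
  · obtain ⟨y, hy, v, hv, hrv⟩ := hr
    have hN : K.card + 2 + (W ∩ F.flatten.toFinset).card < F.flatten.toFinset.card := by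
      obtain ⟨v1, hv1, v2, hv2, h12⟩ := h.two y hy
      obtain ⟨w, hw, hwv⟩ : ∃ w ∈ att G F y, v ≠ w := by
        by_cases hh : v = v1
        · exact ⟨v2, hv2, hh ▸ h12⟩
        · exact ⟨v1, hv1, hh⟩
      have h1 := link_lt h.hM h.hF1 hv (mem_att.1 hw).1 hwv (h.l0 hy hrv hw)
      rw [card_C h.hM.fam]
      omega
    have hcount := (dat G F h.hM h.hF1 W K h.un h.dis (fun y v => v ∈ att G F y)
      (fun y v => H72N.Rich G (comp G F y) (SS y) v)
      (fun y v => ((II y).filter (fun u => G.Adj v u)).card) (fun y => (II y).card) hN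
      (fun y hy => Finset.card_pos.2 (h.ne y hy))
      (fun y hy v hv => Finset.card_le_card (Finset.filter_subset _ _))
      (fun y hy v hv hn => by
        obtain ⟨u, hu⟩ := Finset.card_pos.1 hn
        rw [Finset.mem_filter] at hu
        exact h.seen_rich hy hu.1 (List.mem_toFinset.1 hv) hu.2)
      (fun y hy v hv hs => h.rich_att (List.mem_toFinset.1 hv) hs)
      (fun y hy => by
        obtain ⟨v, hv, w, hw, hne⟩ := h.two y hy
        exact ⟨v, List.mem_toFinset.2 (mem_att.1 hv).1, w,
          List.mem_toFinset.2 (mem_att.1 hw).1, hne, hv, hw⟩)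
      (fun y hy v hv w hw hne hs hA => h.l0 hy hs hA)
      (fun y hy v hv w hw hne hn hA => h.f1 hy hn hA)
      (fun y hy v hv w hw hne hn hn' => h.f2 hy hn hn')).count ⟨y, hy⟩
    obtain ⟨p, hpC, hpW, hps, hpa⟩ := hcount
    refine ⟨p, List.mem_toFinset.1 hpC, hpW, hps, fun a ha ha0 => ?_⟩
    have h1 := hpa a ha ha0
    refine h1.trans (Nat.add_le_add_right ?_ _)
    unfold H88C.Dat.nn
    refine Finset.card_le_card ?_
    intro z hz
    rw [Finset.mem_filter] at hz ⊢
    exact hz
  · push Not at hr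
    obtain ⟨p, hpC, hpW⟩ := hp
    refine ⟨p, hpC, hpW, fun y hy => hr y hy p hpC, fun a ha ha0 => ?_⟩
    have h1 : ∀ y ∈ K, ∑ v ∈ F.flatten.toFinset,
        ((II y).filter (fun u => G.Adj v u)).card + a y ≤ 1 := by
      intro y hy
      have : ∑ v ∈ F.flatten.toFinset, ((II y).filter (fun u => G.Adj v u)).card = 0 := by
        refine Finset.sum_eq_zero (fun v hv => ?_)
        rw [Finset.card_eq_zero, Finset.filter_eq_empty_iff]
        intro u hu hadj
        exact hr y hy v (List.mem_toFinset.1 hv)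
          (h.seen_rich hy hu (List.mem_toFinset.1 hv) hadj)
      have := ha y hy
      omega
    have h2 := Finset.sum_le_sum h1
    rw [← Finset.card_eq_sum_ones] at h2
    omega

/-- **THE INEQUALITY**: `p` and the sets of the components -/
theorem main_sum (h : Lv G F W K SS bb ff II) {R : Finset V} (hR : Reps G F R) (hKR : K ⊆ R)
    (hE : ∀ y ∈ R, y ∉ K → II y = ∅) (hp : ∃ p ∈ F.flatten, p ∉ W) :
    ∃ p ∈ F.flatten, p ∉ W ∧ (∀ y ∈ K, ¬ H72N.Rich G (comp G F y) (SS y) p) ∧
      (∀ y ∈ R, ∀ v ∈ II y, ¬ G.Adj p v) ∧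
      dU G Finset.univ p + ∑ y ∈ R, ∑ v ∈ II y, dU G Finset.univ v + 1 ≤
        (Finset.univ : Finset V).card := by
  classical
  obtain ⟨p, hpF, hpW, hpr, hpa⟩ := h.exists_p hp
  refine ⟨p, hpF, hpW, hpr, ?_, ?_⟩
  · intro y hy v hv hadj
    by_cases hyK : y ∈ K
    · exact hpr y hyK (h.seen_rich hyK hv hpF hadj)
    · rw [hE y hy hyK] at hv
      exact absurd hv (Finset.notMem_empty _)
  set C := F.flatten.toFinset with hC
  set a : V → ℕ := fun y => if p ∈ att G F y then 1 else 0 with ha
  have h1 := hpa a (fun y _ => by simp only [ha]; split_ifs <;> omega)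
    (fun y _ hn => by simp only [ha]; rw [if_neg hn])
  -- the degree of `p`
  have h2 := hR.deg p
  rw [← hC] at h2
  have h3 : dU G C p + (C.filter (fun z => z ≠ p ∧ ¬ G.Adj p z)).card + 1 = C.card := by
    have e1 : C = insert p ((C.filter (fun z => G.Adj p z)) ∪
        (C.filter (fun z => z ≠ p ∧ ¬ G.Adj p z))) := by
      ext z
      simp only [Finset.mem_insert, Finset.mem_union, Finset.mem_filter]
      constructor
      · intro hz
        by_cases hzp : z = p
        · exact Or.inl hzp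
        · by_cases hadj : G.Adj p z
          · exact Or.inr (Or.inl ⟨hz, hadj⟩)
          · exact Or.inr (Or.inr ⟨hz, hzp, hadj⟩)
      · rintro (rfl | hz | hz)
        · exact List.mem_toFinset.2 hpF
        · exact hz.1
        · exact hz.1
    have e2 : p ∉ (C.filter (fun z => G.Adj p z)) ∪
        (C.filter (fun z => z ≠ p ∧ ¬ G.Adj p z)) := by
      simp
    have e3 : Disjoint (C.filter (fun z => G.Adj p z))
        (C.filter (fun z => z ≠ p ∧ ¬ G.Adj p z)) := by
      rw [Finset.disjoint_left]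
      intro z hz hz'
      exact (Finset.mem_filter.1 hz').2.2 (Finset.mem_filter.1 hz).2
    conv_rhs => rw [e1]
    rw [Finset.card_insert_of_notMem e2, Finset.card_union_of_disjoint e3]
    rfl
  have h4 : C.card = F.flatten.length := card_C h.hM.fam
  have h5 := hR.card_univ h.hM.fam
  -- the components
  have h6 : ∀ y ∈ R, dU G (comp G F y) p + ∑ v ∈ II y, dU G Finset.univ v +
      (if y ∈ K then 1 else 0) ≤ (comp G F y).card +
      (if y ∈ K then (∑ v ∈ C, ((II y).filter (fun u => G.Adj v u)).card + a y) else 0) := by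
    intro y hy
    by_cases hyK : y ∈ K
    · rw [if_pos hyK, if_pos hyK]
      have e1 : ∑ v ∈ II y, dU G Finset.univ v = ∑ v ∈ II y, dU G (comp G F y) v +
          ∑ v ∈ II y, ((att G F y).filter (fun w => G.Adj v w)).card := by
        rw [← Finset.sum_add_distrib]
        exact Finset.sum_congr rfl (fun v hv => deg_comp (h.un y hyK) (h.isub hyK hv))
      have e2 : ∑ v ∈ II y, ((att G F y).filter (fun w => G.Adj v w)).card ≤
          ∑ v ∈ C, ((II y).filter (fun u => G.Adj v u)).card := by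
        have e3 : ∑ v ∈ II y, ((att G F y).filter (fun w => G.Adj v w)).card ≤
            ∑ v ∈ II y, (C.filter (fun w => G.Adj v w)).card := by
          refine Finset.sum_le_sum (fun v hv => Finset.card_le_card ?_)
          intro w hw
          rw [Finset.mem_filter] at hw ⊢
          exact ⟨List.mem_toFinset.2 (mem_att.1 hw.1).1, hw.2⟩
        refine e3.trans (le_of_eq ?_)
        simp only [Finset.card_filter]
        rw [Finset.sum_comm]
        refine Finset.sum_congr rfl (fun v _ => Finset.sum_congr rfl (fun w _ => ?_))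
        simp only [G.adj_comm]
      by_cases hN : ((comp G F y).filter (fun z => G.Adj p z)).Nonempty
      · have e4 := (h.pkg y hyK).near ((comp G F y).filter (fun z => G.Adj p z))
          (Finset.filter_subset _ _) (by
            intro x hx x' hx'
            rw [Finset.mem_filter] at hx hx'
            exact H72N.poor_near (hpr y hyK) hx.1 hx'.1 hx.2 hx'.2)
        have e5 : a y = 1 := by
          obtain ⟨z, hz⟩ := hN
          rw [Finset.mem_filter] at hz
          simp only [ha]
          rw [if_pos (att_of hpF hz.1 hz.2)]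
        have e6 : dU G (comp G F y) p = ((comp G F y).filter (fun z => G.Adj p z)).card := rfl
        omega
      · have e4 := (h.pkg y hyK).sum (mem_comp.2 ⟨h.un y hyK, Relation.ReflTransGen.refl⟩)
        rw [Finset.not_nonempty_iff_eq_empty] at hN
        have e6 : dU G (comp G F y) p = 0 := by
          show ((comp G F y).filter (fun z => G.Adj p z)).card = 0
          rw [hN]
          rfl
        omega
    · rw [if_neg hyK, if_neg hyK, hE y hy hyK]
      have e6 : dU G (comp G F y) p ≤ (comp G F y).card :=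
        Finset.card_le_card (Finset.filter_subset _ _)
      simp only [Finset.sum_empty]
      omega
  have h7 := Finset.sum_le_sum h6
  rw [Finset.sum_add_distrib, Finset.sum_add_distrib, Finset.sum_add_distrib,
    ← Finset.sum_filter, ← Finset.sum_filter] at h7
  have h8 : R.filter (fun y => y ∈ K) = K := by
    ext y
    simp only [Finset.mem_filter]
    exact ⟨fun hh => hh.2, fun hh => ⟨hKR hh, hh⟩⟩
  rw [h8, ← Finset.card_eq_sum_ones] at h7
  omega

end Lv

end Pool.Agent.HW43.Dt
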