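import Pool.Agent.H6T.OneP

/-! SUPPLY with weights (h32_count.md): the non-neighbours of `p` in front of the hubs `s` of one
component, `f s` for the hub `s`. -/

namespace Pool.Agent.HW43

open List Pool.Agent.TF82 Pool.Agent.TFC Pool.Agent.H6T

universe u

set_option linter.unusedSectionVars false
set_option linter.unusedVariables false

variable {V : Type u} [DecidableEq V]

theorem cnt_natw {m g : ℕ} {N H : Finset ℕ} {D : ℕ → ℕ} (h1 : ∀ i ∈ N, i < m)
    (hH : ∀ i ∈ H, i < m) (hg : ∀ h ∈ H, g + D h ≤ h)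
    (hb : ∀ h ∈ H, ∀ i ∈ N, g ≤ i → i < h → i + D h < h)
    (hd : ∀ h ∈ H, ∀ h' ∈ H, h < h' → h + D h' ≤ h') : N.card + ∑ h ∈ H, D h ≤ m := by
  set Bl : Finset ℕ := H.biUnion (fun h => (Finset.range (D h)).image (fun q => h - 1 - q))
    with hBl
  have hmem : ∀ h ∈ H, ∀ x ∈ (Finset.range (D h)).image (fun q => h - 1 - q),
      g ≤ x ∧ x < h ∧ h ≤ x + D h := by
    intro h hh x hx
    obtain ⟨q, hq, rfl⟩ := Finset.mem_image.1 hx
    rw [Finset.mem_range] at hq
    have := hg h hh
    omega
  have hBlc : Bl.card = ∑ h ∈ H, D h := by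
    rw [hBl, Finset.card_biUnion]
    · apply Finset.sum_congr rfl
      intro h hh
      rw [Finset.card_image_of_injOn, Finset.card_range]
      intro a ha b hb' hab
      rw [Finset.mem_coe, Finset.mem_range] at ha hb'
      have := hg h hh
      simp only at hab
      omega
    · intro a ha b hb' hab
      rw [Function.onFun, Finset.disjoint_left]
      intro x hx hx'
      have e1 := hmem a ha x hx
      have e2 := hmem b hb' x hx'
      rcases Nat.lt_or_gt_of_ne hab with h | h
      · have := hd a ha b hb' h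
        omega
      · have := hd b hb' a ha h
        omega
  have hdis : Disjoint N Bl := by
    rw [Finset.disjoint_left]
    intro i hi hi2
    rw [hBl, Finset.mem_biUnion] at hi2
    obtain ⟨h, hh, hx⟩ := hi2
    have e := hmem h hh i hx
    have := hb h hh i hi e.1 e.2.1
    omega
  have hsub : N ∪ Bl ⊆ Finset.range m := by
    intro i hi
    rw [Finset.mem_range]
    rcases Finset.mem_union.1 hi with hi | hi
    · exact h1 i hi
    · rw [hBl, Finset.mem_biUnion] at hi
      obtain ⟨h, hh, hx⟩ := hi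
      have e := hmem h hh i hx
      have := hH h hh
      omega
  have := Finset.card_le_card hsub
  rwa [Finset.card_union_of_disjoint hdis, hBlc, Finset.card_range] at this

/-- **SUPPLY**: `w = R[g]` is a hub `g + 1` places after `p`; `S` a set of vertices of `R`
containing `w`; `w` and `s` are linked by `f s + g` vertices, `s` and `t` by `f t` vertices. -/
theorem supply {G : SimpleGraph V} [DecidableRel G.Adj] {R : List V} {p : V} {S : Finset V}
    {f : V → ℕ} {g : ℕ} (hc : CycL G (p :: R))
    (hmax : ∀ c', CycL G c' → c'.length ≤ (p :: R).length) (hg : g < R.length)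
    (hw : R[g] ∈ S) (hSR : ∀ s ∈ S, s ∈ R)
    (hlkw : ∀ s ∈ S, s ≠ R[g] → Lk G (p :: R) (f s + g) R[g] s)
    (hlk : ∀ s ∈ S, ∀ t ∈ S, s ≠ t → s ≠ R[g] → t ≠ R[g] → Lk G (p :: R) (f t) s t ∨
      Lk G (p :: R) (f t) t s) :
    cnt G p (p :: R) + ∑ s ∈ S.erase R[g], f s + 1 ≤ (p :: R).length := by
  have hnR : R.Nodup := (List.nodup_cons.1 hc.1).2
  have hcp : cnt G p (p :: R) = cnt G p R := by
    unfold cnt
    rw [List.filter_cons]
    simp
  rw [hcp, List.length_cons, cnt_pos]
  have lksym : ∀ {L : ℕ} {s t : V}, Lk G (p :: R) L s t → Lk G (p :: R) L t s := by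
    rintro L s t ⟨Q, x1, x2, hQ, hQn, hQd, hQL, hs, ht⟩
    exact ⟨Q.reverse, x2, x1, hQ.rev, List.nodup_reverse.2 hQn,
      fun z hz => hQd z (List.mem_reverse.1 hz), by rwa [List.length_reverse], ht, hs⟩
  have lkpos : ∀ {L : ℕ} {s t : V}, Lk G (p :: R) L s t → Lk G (p :: R) (max 1 L) s t := by
    rintro L s t ⟨Q, x1, x2, hQ, hQn, hQd, hQL, hs, ht⟩
    have := hQ.pos
    exact ⟨Q, x1, x2, hQ, hQn, hQd, by omega, hs, ht⟩
  set N := (Finset.range R.length).filter (fun i => ∃ h : i < R.length, G.Adj p R[i]) with hN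
  set H := (Finset.range R.length).filter (fun i => ∃ h : i < R.length, R[i] ∈ S) with hH
  set D : ℕ → ℕ := fun i => if h : i < R.length then f R[i] else 0 with hD
  have hDi : ∀ i (h : i < R.length), D i = f R[i] := by
    intro i h
    rw [hD]
    simp only [dif_pos h]
  have hgH : g ∈ H := by
    rw [hH, Finset.mem_filter, Finset.mem_range]
    exact ⟨hg, hg, hw⟩
  have hsum : ∑ s ∈ S.erase R[g], f s = ∑ h ∈ H.erase g, D h := by
    symm
    refine Finset.sum_bij (fun i hi => R[i]'(by
      have := Finset.mem_of_mem_erase hi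
      rw [hH, Finset.mem_filter, Finset.mem_range] at this
      exact this.1)) ?_ ?_ ?_ ?_
    · intro i hi
      have h1 := Finset.mem_of_mem_erase hi
      have h2 := Finset.ne_of_mem_erase hi
      rw [hH, Finset.mem_filter] at h1
      rw [Finset.mem_erase]
      refine ⟨?_, h1.2.2⟩
      intro he
      exact h2 ((List.Nodup.getElem_inj_iff hnR).1 he)
    · intro i hi j hj h
      exact (List.Nodup.getElem_inj_iff hnR).1 h
    · intro s hs
      rw [Finset.mem_erase] at hs
      obtain ⟨i, hi, h⟩ := List.getElem_of_mem (hSR s hs.2)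
      refine ⟨i, ?_, h⟩
      rw [Finset.mem_erase]
      refine ⟨?_, ?_⟩
      · rintro rfl
        exact hs.1 h.symm
      · rw [hH, Finset.mem_filter, Finset.mem_range]
        exact ⟨hi, hi, by rw [h]; exact hs.2⟩
    · intro i hi
      exact hDi i _
  -- hubs different from `w`
  have hne : ∀ {h h' : ℕ} (hh : h < R.length) (hh' : h' < R.length), h ≠ h' →
      R[h] ≠ R[h'] := by
    intro h h' hh hh' hne he
    exact hne ((List.Nodup.getElem_inj_iff hnR).1 he)
  have hafter : ∀ h ∈ H.erase g, ∃ hh : h < R.length, R[h] ∈ S ∧ g < h ∧ g + (D h + g) < h := by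
    intro h hh
    have h1 := Finset.mem_of_mem_erase hh
    have h2 := Finset.ne_of_mem_erase hh
    rw [hH, Finset.mem_filter] at h1
    obtain ⟨-, hh1, hh2⟩ := h1
    have hl := hlkw _ hh2 (hne hh1 hg h2)
    rw [← hDi h hh1] at hl
    refine ⟨hh1, hh2, ?_⟩
    rcases Nat.lt_or_gt_of_ne h2 with hlt | hlt
    · have := hubs_far (L := max 1 (D h + g)) (by omega) hc hmax hlt hg (lkpos (lksym hl))
      omega
    · have := hubs_far (L := max 1 (D h + g)) (by omega) hc hmax hlt hh1 (lkpos hl)
      omega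
  have hcount := cnt_natw (m := R.length) (D := D) (g := g) (N := N) (H := H.erase g)
    (fun i hi => by rw [hN, Finset.mem_filter] at hi; exact hi.2.1)
    (fun i hi => (hafter i hi).1) ?_ ?_ ?_
  · rw [hsum]
    omega
  · intro h hh
    obtain ⟨h1, h2, h3, h4⟩ := hafter h hh
    omega
  · intro h hh i hi hgi hih
    obtain ⟨h1, h2, h3, h4⟩ := hafter h hh
    rw [hN, Finset.mem_filter] at hi
    obtain ⟨-, hi1, hi2⟩ := hi
    have hl := hlkw _ h2 (hne h1 hg (by omega))
    rw [← hDi h h1] at hl
    have := block_before (L := max 1 (D h + g)) (by omega) hc hmax hgi hih h1 (lkpos hl) hi2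
    omega
  · intro h hh h' hh' hlt
    obtain ⟨h1, h2, h3, h4⟩ := hafter h hh
    obtain ⟨h1', h2', h3', h4'⟩ := hafter h' hh'
    have hl : Lk G (p :: R) (f R[h']) R[h] R[h'] := by
      rcases hlk _ h2 _ h2' (hne h1 h1' (by omega)) (hne h1 hg (by omega))
        (hne h1' hg (by omega)) with h | h
      · exact h
      · exact lksym h
    rw [← hDi h' h1'] at hl
    have := hubs_far (L := max 1 (D h')) (by omega) hc hmax hlt h1' (lkpos hl)
    omega

end Pool.Agent.HW43
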