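import Pool.Agent.H6T.TwoP

/-! helper6's two-vertex count with runs: the arc between the hubs `y` and `y'` is
`X1 ++ A ++ X2`, only the inner arc `A` is not closable. -/

namespace Pool.Agent.HW43

open List Pool.Agent.TF82 Pool.Agent.TFC Pool.Agent.H6T

universe u

set_option linter.unusedSectionVars false
set_option linter.unusedVariables false

variable {V : Type u} [DecidableEq V]

theorem core' {G : SimpleGraph V} {M B Q R : List V} {i j γ N : ℕ} (hij : i < j)
    (hj : j < B.length) (hn : (M ++ B).Nodup) (hQn : Q.Nodup) (hQ : ∀ z ∈ Q, z ∉ M ++ B)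
    (hmax : ∀ c', CycL G c' → c'.length ≤ N) (hN : N = M.length + γ + B.length)
    (hM3 : 3 ≤ M.length) {a b : V}
    (hR : Seg G R a b) (hba : G.Adj b a)
    (hp : R.Perm ((M ++ (B.take (i + 1) ++ B.drop j)) ++ Q)) : Q.length + i < j + γ := by
  have hlen : R.length = M.length + ((i + 1) + (B.length - j)) + Q.length := by
    rw [hp.length_eq]
    simp only [List.length_append, List.length_take, List.length_drop]
    omega
  have hsub : (M ++ (B.take (i + 1) ++ B.drop j)).Sublist (M ++ B) := by
    apply List.Sublist.append_left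
    have h1 : B.take (i + 1) ++ B.drop (i + 1) = B := List.take_append_drop _ _
    have h2 : (B.drop j).Sublist (B.drop (i + 1)) := by
      have : B.drop j = (B.drop (i + 1)).drop (j - (i + 1)) := by
        rw [List.drop_drop]
        congr 1
        omega
      rw [this]
      exact List.drop_sublist _ _
    have h3 := List.Sublist.append_left h2 (B.take (i + 1))
    rwa [h1] at h3
  have hnod : R.Nodup := by
    rw [hp.nodup_iff, List.nodup_append]
    refine ⟨hsub.nodup hn, hQn, ?_⟩
    rintro x hx z hz rfl
    exact hQ x hz (hsub.subset hx)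
  have hcyc : CycL G R := by
    refine ⟨hnod, by omega, hR.ch, ?_⟩
    intro x hx z hz
    rw [hR.lt] at hx
    rw [hR.hd] at hz
    simp only [Option.mem_def, Option.some.injEq] at hx hz
    rw [← hx, ← hz]
    exact hba
  have := hmax R hcyc
  omega

theorem two_pr {G : SimpleGraph V} [DecidableRel G.Adj] {X1 A X2 B : List V} {p1 p2 y' y : V}
    {Y : Finset V} {L : ℕ} (hL : 1 ≤ L) (hc : CycL G ((X1 ++ A ++ X2) ++ B))
    (hmax : ∀ c', CycL G c' → c'.length ≤ ((X1 ++ A ++ X2) ++ B).length) (hA : Seg G A p1 p2)
    (hB : Seg G B y' y) (hA3 : 3 ≤ A.length) (hAno : ∀ c', CycL G c' → ¬ c'.Perm A)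
    (hYB : ∀ s ∈ Y, s ∈ B) (hy : y ∈ Y) (hy' : y' ∈ Y)
    (hlk : ∀ s ∈ Y, ∀ t ∈ Y, s ≠ t →
      Lk G ((X1 ++ A ++ X2) ++ B) (L + (X1.length + X2.length)) s t) :
    cnt G p1 ((X1 ++ A ++ X2) ++ B) + cnt G p2 ((X1 ++ A ++ X2) ++ B) + Y.card * L + 1 ≤
      ((X1 ++ A ++ X2) ++ B).length + (X1.length + X2.length) + Y.card + L := by
  have hnAB := hc.1
  have hnA3 : (X1 ++ A ++ X2).Nodup := (List.nodup_append.1 hnAB).1
  have hnA1 : (X1 ++ A).Nodup := (List.nodup_append.1 hnA3).1
  have hnA : A.Nodup := (List.nodup_append.1 hnA1).2.1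
  have hnB : B.Nodup := (List.nodup_append.1 hnAB).2.1
  set N := ((X1 ++ A ++ X2) ++ B).length with hNdef
  have hNlen : N = X1.length + A.length + X2.length + B.length := by
    rw [hNdef]
    simp only [List.length_append]
  have hApos := hA.pos
  have hAne : A ≠ [] := by
    rintro rfl
    simp at hApos
  -- the ends of the long arcs
  obtain ⟨q1, hq1⟩ : ∃ q, (X1 ++ A).head? = some q := by
    rcases X1 with _ | ⟨x, X1⟩
    · exact ⟨p1, by simpa using hA.hd⟩
    · exact ⟨x, rfl⟩
  obtain ⟨q2, hq2⟩ : ∃ q, (A ++ X2).getLast? = some q :=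
    ⟨_, List.getLast?_eq_getLast_of_ne_nil (by simp [hAne])⟩
  have hch := hc.2.2.1
  rw [List.isChain_append] at hch
  have hch3 := hch.1
  have hA1 : Seg G (X1 ++ A) q1 p2 := by
    refine ⟨?_, hq1, ?_⟩
    · exact (List.isChain_append.1 hch3).1
    · rw [List.getLast?_append, hA.lt]
      rfl
  have hA2 : Seg G (A ++ X2) p1 q2 := by
    refine ⟨?_, ?_, hq2⟩
    · rw [List.append_assoc] at hch3
      exact (List.isChain_append.1 hch3).2.1
    · rw [List.head?_append, hA.hd]
      rfl
  have hA3' : Seg G (X1 ++ A ++ X2) q1 q2 := by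
    refine ⟨hch3, ?_, ?_⟩
    · rw [List.head?_append, hq1]
      rfl
    · rw [List.append_assoc, List.getLast?_append_of_ne_nil _ (by simp [hAne])]
      exact hq2
  have e2 : G.Adj q2 y' := hch.2.2 q2 (by rw [hA3'.lt]; rfl) y' (by rw [hB.hd]; rfl)
  have e1 : G.Adj y q1 := by
    refine hc.2.2.2 y ?_ q1 ?_
    · rw [List.getLast?_append, hB.lt]
      rfl
    · rw [List.head?_append, hA3'.hd]
      rfl
  -- nodup and disjointness for the parts
  have sub1 : ((X1 ++ A) ++ B).Sublist ((X1 ++ A ++ X2) ++ B) :=
    List.Sublist.append_right (List.sublist_append_left _ _) _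
  have sub2 : ((A ++ X2) ++ B).Sublist ((X1 ++ A ++ X2) ++ B) := by
    apply List.Sublist.append_right
    rw [List.append_assoc]
    exact List.sublist_append_right _ _
  have sub0 : (A ++ B).Sublist ((X1 ++ A ++ X2) ++ B) :=
    (List.Sublist.append_right (List.sublist_append_left A X2) B).trans sub2
  -- the arc `A`
  have hAc : cnt G p1 A + cnt G p2 A + 1 ≤ A.length := by
    refine path_count hnA hA.hd hA.lt ?_
    intro w hw h1 h2
    obtain ⟨c', hc', hp⟩ := close_path hnA hA3 hA.ch hA.hd hA.lt hw h1 h2
    exact hAno c' hc' hp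
  have cX : ∀ (p : V) (X : List V), cnt G p X ≤ X.length := fun p X => List.length_filter_le _ _
  have b1 := cX p1 X1
  have b2 := cX p1 X2
  have b3 := cX p2 X1
  have b4 := cX p2 X2
  rw [cnt_append, cnt_append, cnt_append, cnt_append, cnt_append, cnt_append]
  suffices hBc : cnt G p1 B + cnt G p2 B + Y.card * L ≤ B.length + Y.card + L by omega
  by_cases hyy : y' = y
  · -- one hub
    subst hyy
    have hBp := hB.pos
    have hBl : B.length = 1 := by
      have h0 := hB.hd
      have h1 := hB.lt
      rw [List.head?_eq_getElem?, List.getElem?_eq_getElem (by omega)] at h0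
      rw [List.getLast?_eq_getElem?, List.getElem?_eq_getElem (by omega)] at h1
      have h2 : B[0] = B[B.length - 1] := by
        rw [Option.some.injEq] at h0 h1
        rw [h0, h1]
      have := (List.Nodup.getElem_inj_iff hnB).1 h2
      omega
    have hYc : Y.card ≤ 1 := by
      have h1 : Y ⊆ B.toFinset := fun s hs => List.mem_toFinset.2 (hYB s hs)
      have h2 := Finset.card_le_card h1
      rw [List.toFinset_card_of_nodup hnB] at h2
      omega
    have hY1 : 0 < Y.card := Finset.card_pos.2 ⟨_, hy⟩
    have hYe : Y.card = 1 := by omega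
    have c1 : cnt G p1 B ≤ B.length := List.length_filter_le _ _
    have c2 : cnt G p2 B ≤ B.length := List.length_filter_le _ _
    rw [hYe]
    omega
  have hyy' : y ≠ y' := fun h => hyy h.symm
  set N1 := (Finset.range B.length).filter (fun i => ∃ h : i < B.length, G.Adj p1 B[i]) with hN1
  set N2 := (Finset.range B.length).filter (fun i => ∃ h : i < B.length, G.Adj p2 B[i]) with hN2
  set H := (Finset.range B.length).filter (fun i => ∃ h : i < B.length, B[i] ∈ Y) with hH
  have hcount := cnt_nat (m := B.length) hL (N1 := N1) (N2 := N2) (H := H)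
    (fun i hi => by rw [hN1, Finset.mem_filter] at hi; exact hi.2.1)
    (fun i hi => by rw [hN2, Finset.mem_filter] at hi; exact hi.2.1)
    (fun i hi => by rw [hH, Finset.mem_filter] at hi; exact hi.2.1) ?_ ?_ ?_ ?_
  · rw [cnt_pos (B := B), cnt_pos (B := B), hub_pos hnB hYB]
    have hpos : 0 < H.card := by
      rw [hH, ← hub_pos hnB hYB]
      exact Finset.card_pos.2 ⟨_, hy⟩
    have e : H.card * L = H.card * (L - 1) + H.card := by
      obtain ⟨l, rfl⟩ := Nat.exists_eq_add_of_le hL
      rw [Nat.add_sub_cancel_left]
      ring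
    rw [← hH, ← hN1, ← hN2, e]
    omega
  · -- gaps between neighbours of `p1` and `p2`
    intro i hi j hj hij
    rw [hN1, Finset.mem_filter] at hi
    rw [hN2, Finset.mem_filter] at hj
    obtain ⟨-, hi1, hi2⟩ := hi
    obtain ⟨-, hj1, hj2⟩ := hj
    obtain ⟨Q, x1, x2, hQ, hQn, hQd, hQL, hs, ht⟩ := hlk y hy y' hy' hyy'
    rcases Nat.lt_or_gt_of_ne hij with hlt | hlt
    · left
      have hR := (((segT hB hi1).append hA hi2.symm).append (segD hB hj1) hj2).append hQ hs
      have := core' (γ := X1.length + X2.length) (M := A) hlt hj1 (sub0.nodup hnAB) hQn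
        (fun z hz h => hQd z hz (sub0.subset h)) hmax (by omega) hA3 hR ht.symm (by
        apply List.Perm.append_right
        rw [← List.append_assoc]
        exact List.perm_append_comm.append_right _)
      omega
    · right
      have hR := (((segT hB hj1).append hA.rev hj2.symm).append (segD hB hi1) hi2).append hQ hs
      have := core' (γ := X1.length + X2.length) (M := A) hlt hi1 (sub0.nodup hnAB) hQn
        (fun z hz h => hQd z hz (sub0.subset h)) hmax (by omega) hA3 hR ht.symm (by
        apply List.Perm.append_right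
        rw [← List.append_assoc]
        refine List.Perm.append_right _ ?_
        exact List.perm_append_comm.trans ((List.reverse_perm A).append_right _))
      omega
  · -- after a hub there is no neighbour of `p1`
    intro h hh i hi hhi
    rw [hH, Finset.mem_filter] at hh
    rw [hN1, Finset.mem_filter] at hi
    obtain ⟨-, hi1, hi2⟩ := hi
    obtain ⟨-, hh1, hh2⟩ := hh
    have hlast : B[B.length - 1]'(by omega) = y := by
      have := hB.lt
      rw [List.getLast?_eq_getElem?, List.getElem?_eq_getElem (by omega)] at this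
      simpa using this
    have hne : B[h] ≠ y := by
      intro he
      have := (List.Nodup.getElem_inj_iff hnB).1 (he.trans hlast.symm)
      omega
    obtain ⟨Q, x1, x2, hQ, hQn, hQd, hQL, hs, ht⟩ := hlk _ hh2 y hy hne
    have hR := ((hA2.append (segT hB hh1) e2).append hQ hs).append (segD hB hi1).rev ht.symm
    have := core' (γ := X1.length) (M := A ++ X2) hhi hi1 (sub2.nodup hnAB) hQn
      (fun z hz h => hQd z hz (sub2.subset h)) hmax (by rw [List.length_append]; omega)
      (by rw [List.length_append]; omega) hR hi2.symm (by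
      have p1 : (((A ++ X2) ++ B.take (h + 1)) ++ Q ++ (B.drop i).reverse).Perm
          (((A ++ X2) ++ B.take (h + 1)) ++ (B.drop i ++ Q)) := by
        rw [List.append_assoc ((A ++ X2) ++ B.take (h + 1))]
        apply List.Perm.append_left
        exact List.perm_append_comm.trans ((List.reverse_perm _).append_right _)
      refine p1.trans ?_
      simp)
    omega
  · -- before a hub there is no neighbour of `p2`
    intro h hh j hj hhj
    rw [hH, Finset.mem_filter] at hh
    rw [hN2, Finset.mem_filter] at hj
    obtain ⟨-, hj1, hj2⟩ := hj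
    obtain ⟨-, hh1, hh2⟩ := hh
    have hfst : B[0]'(by omega) = y' := by
      have := hB.hd
      rw [List.head?_eq_getElem?, List.getElem?_eq_getElem (by omega)] at this
      simpa using this
    have hne : y' ≠ B[h] := by
      intro he
      have := (List.Nodup.getElem_inj_iff hnB).1 (hfst.trans he)
      omega
    obtain ⟨Q, x1, x2, hQ, hQn, hQd, hQL, hs, ht⟩ := hlk y' hy' _ hh2 hne
    have hR := (((segT hB hj1).rev.append hQ hs).append (segD hB hh1) ht.symm).append hA1 e1
    have := core' (γ := X2.length) (M := X1 ++ A) hhj hh1 (sub1.nodup hnAB) hQn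
      (fun z hz h => hQd z hz (sub1.subset h)) hmax (by rw [List.length_append]; omega)
      (by rw [List.length_append]; omega) hR hj2 (by
      have q1 : ((B.take (j + 1)).reverse ++ Q ++ B.drop h ++ (X1 ++ A)).Perm
          ((X1 ++ A) ++ (B.take (j + 1) ++ Q ++ B.drop h)) := by
        refine List.perm_append_comm.trans ?_
        apply List.Perm.append_left
        exact ((List.reverse_perm _).append_right _).append_right _
      refine q1.trans ?_
      rw [List.append_assoc (X1 ++ A)]
      apply List.Perm.append_left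
      rw [List.append_assoc, List.append_assoc]
      apply List.Perm.append_left
      exact List.perm_append_comm)
    omega
  · -- two hubs
    intro h hh h' hh' hhh
    rw [hH, Finset.mem_filter] at hh hh'
    obtain ⟨-, hh1, hh2⟩ := hh
    obtain ⟨-, hh1', hh2'⟩ := hh'
    have hne : B[h] ≠ B[h'] := by
      intro he
      have := (List.Nodup.getElem_inj_iff hnB).1 he
      omega
    obtain ⟨Q, x1, x2, hQ, hQn, hQd, hQL, hs, ht⟩ := hlk _ hh2 _ hh2' hne
    have hR := ((hA3'.append (segT hB hh1) e2).append hQ hs).append (segD hB hh1') ht.symm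
    have := core' (γ := 0) (M := X1 ++ A ++ X2) hhh hh1' hnAB hQn hQd hmax
      (by rw [List.length_append, List.length_append]; omega)
      (by rw [List.length_append, List.length_append]; omega) hR e1 (by
      rw [List.append_assoc ((X1 ++ A ++ X2) ++ B.take (h + 1)), List.append_assoc (X1 ++ A ++ X2)]
      rw [List.append_assoc (X1 ++ A ++ X2)]
      apply List.Perm.append_left
      rw [List.append_assoc]
      apply List.Perm.append_left
      exact List.perm_append_comm)
    omega

end Pool.Agent.HW43
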