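import Pool.Agent.H62P.Steps

/-! The virtual hub: one new optional vertex `s`, adjacent to the vertices of a component `Z`
with a property `p` (every other vertex of `Z` misses a hub). -/

namespace Pool.Agent.HW43

open List Pool.Agent.TF82 Pool.Agent.TFC Pool.Agent.TFB Pool.Agent.H62P

universe u

set_option linter.unusedSectionVars false
set_option linter.unusedVariables false

variable {V : Type u} [DecidableEq V]

/-- the graph `G` without the edges at `s`, and `s` joined to the vertices of `Z` with `p` -/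
def vG (G : SimpleGraph V) (Z : Finset V) (s : V) (p : V → Prop) : SimpleGraph V where
  Adj a b := (a ≠ s ∧ b ≠ s ∧ G.Adj a b) ∨ (a = s ∧ b ≠ s ∧ b ∈ Z ∧ p b) ∨
    (b = s ∧ a ≠ s ∧ a ∈ Z ∧ p a)
  symm := ⟨by
    rintro a b (⟨h1, h2, h3⟩ | h | h)
    · exact Or.inl ⟨h2, h1, h3.symm⟩
    · exact Or.inr (Or.inr h)
    · exact Or.inr (Or.inl h)⟩
  loopless := ⟨by
    rintro a (⟨-, -, h⟩ | ⟨h, h', -⟩ | ⟨h, h', -⟩)
    · exact G.loopless.irrefl _ h
    · exact h' h
    · exact h' h⟩

open Classical in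
noncomputable instance (G : SimpleGraph V) (Z : Finset V) (s : V) (p : V → Prop) :
    DecidableRel (vG G Z s p).Adj := Classical.decRel _

theorem vG_adj {G : SimpleGraph V} {Z : Finset V} {s : V} {p : V → Prop} {a b : V} (ha : a ≠ s)
    (hb : b ≠ s) : (vG G Z s p).Adj a b ↔ G.Adj a b := by
  constructor
  · rintro (⟨-, -, h⟩ | ⟨h, -, -⟩ | ⟨h, -, -⟩)
    · exact h
    · exact absurd h ha
    · exact absurd h hb
  · intro h
    exact Or.inl ⟨ha, hb, h⟩

theorem vG_adj_s {G : SimpleGraph V} {Z : Finset V} {s : V} {p : V → Prop} {a : V} (ha : a ≠ s) :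
    (vG G Z s p).Adj a s ↔ a ∈ Z ∧ p a := by
  constructor
  · rintro (⟨-, h, -⟩ | ⟨h, -, -⟩ | ⟨-, -, h⟩)
    · exact absurd rfl h
    · exact absurd h ha
    · exact h
  · intro h
    exact Or.inr (Or.inr ⟨rfl, ha, h⟩)

open Classical in
theorem vhub_dU {G : SimpleGraph V} [DecidableRel G.Adj] {Z : Finset V} {s : V} {p : V → Prop}
    (hs : s ∉ Z) {v : V} (hv : v ∈ Z) :
    dU (vG G Z s p) (insert s Z) v = dU G Z v + (if p v then 1 else 0) := by
  have hvs : v ≠ s := fun h => hs (h ▸ hv)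
  have e : ∀ w ∈ Z, ((vG G Z s p).Adj v w ↔ G.Adj v w) := by
    intro w hw
    exact vG_adj hvs (fun h => hs (h ▸ hw))
  unfold dU
  rw [Finset.filter_insert]
  have h1 : Z.filter (fun w => (vG G Z s p).Adj v w) = Z.filter (fun w => G.Adj v w) := by
    apply Finset.filter_congr
    intro w hw
    exact e w hw
  by_cases hp : p v
  · rw [if_pos ((vG_adj_s hvs).2 ⟨hv, hp⟩), if_pos hp, h1, Finset.card_insert_of_notMem]
    intro h
    exact hs (Finset.mem_filter.1 h).1
  · rw [if_neg (fun h => hp ((vG_adj_s hvs).1 h).2), if_neg hp, h1]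
    rfl

/-- the component with the virtual hub is in the class -/
theorem vhub_CW [Fintype V] {G : SimpleGraph V} [DecidableRel G.Adj] {W : Finset V}
    (hC : CW G Finset.univ W) {j : ℕ} {L : List (List V)} (hM : IsMax G j L) {y : V}
    (hy : y ∈ unc L) {s : V} (hs : s ∉ comp G L y) {p : V → Prop}
    (hp : ∀ v ∈ comp G L y, v ∉ W → ¬ p v → ∃ w ∈ att G L y, ¬ G.Adj v w) :
    CW (vG G (comp G L y) s p) (insert s (comp G L y)) (insert s (W ∩ comp G L y)) := by
  classical
  intro I hI hind v hv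
  have hIc : ∀ x ∈ I, x ∈ comp G L y ∧ x ∉ W := by
    intro x hx
    have h1 := Finset.mem_sdiff.1 (hI hx)
    rw [Finset.mem_insert, Finset.mem_insert, Finset.mem_inter] at h1
    push Not at h1
    rcases h1.1 with h | h
    · exact absurd h h1.2.1
    · exact ⟨h, fun hw => h1.2.2 hw h⟩
  have hIs : ∀ x ∈ I, x ≠ s := fun x hx h => hs (h ▸ (hIc x hx).1)
  have hindG : G.IsIndepSet (I : Set V) := by
    intro a ha b hb hab h
    exact hind ha hb hab ((vG_adj (hIs a ha) (hIs b hb)).2 h)
  have h1 := att_main_W hC hM hy I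
    (Finset.disjoint_left.2 (fun x hx => (hIc x hx).2)) hindG
    (fun x hx => (mem_comp.1 (hIc x hx).1).2) hv
  rw [← dU_comp (hIc v hv).1] at h1
  have h2 : (insert s (W ∩ comp G L y)).card ≤ (W ∩ unc L).card + 1 := by
    refine (Finset.card_insert_le _ _).trans (Nat.add_le_add_right (Finset.card_le_card ?_) _)
    intro x hx
    have := Finset.mem_inter.1 hx
    exact Finset.mem_inter.2 ⟨this.1, (mem_comp.1 this.2).1⟩
  have h3 := vhub_dU (G := G) (p := p) hs (hIc v hv).1
  by_cases hpv : p v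
  · rw [if_pos hpv] at h3
    omega
  · rw [if_neg hpv] at h3
    obtain ⟨w, hw, hvw⟩ := hp v (hIc v hv).1 (hIc v hv).2 hpv
    have h4 : 1 ≤ ((att G L y).filter (fun w => ¬ G.Adj v w)).card :=
      Finset.card_pos.2 ⟨w, Finset.mem_filter.2 ⟨hw, hvw⟩⟩
    omega

theorem vchain {G : SimpleGraph V} {Z : Finset V} {s : V} {p : V → Prop} {l : List V}
    (h : l.IsChain (vG G Z s p).Adj) (hs : s ∉ l) : l.IsChain G.Adj := by
  have hne : ∀ x ∈ l, x ≠ s := by
    rintro x hx rfl
    exact hs hx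
  rw [List.isChain_iff_getElem] at h ⊢
  intro i hi
  exact (vG_adj (hne _ (List.getElem_mem _)) (hne _ (List.getElem_mem _))).1 (h i hi)

/-- a cycle of `vG` that avoids `s` is a cycle of `G` -/
theorem vcyc {G : SimpleGraph V} {Z : Finset V} {s : V} {p : V → Prop} {c : List V}
    (hc : CycL (vG G Z s p) c) (hs : s ∉ c) : CycL G c := by
  obtain ⟨h1, h2, h3, h4⟩ := hc
  have hne : ∀ x ∈ c, x ≠ s := by
    rintro x hx rfl
    exact hs hx
  refine ⟨h1, h2, vchain h3 hs, ?_⟩
  intro x hx y hy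
  exact (vG_adj (hne x (List.mem_of_getLast? hx)) (hne y (List.mem_of_head? hy))).1
    (h4 x hx y hy)

/-- a cover in the extended graph is a cover of `Z`, or it contains a path between two vertices
with `p` and one cycle less -/
theorem vhub_cov {G : SimpleGraph V} {Z W : Finset V} {s : V} {p : V → Prop} (hs : s ∉ Z)
    {k : ℕ} (h : CovW (vG G Z s p) (insert s Z) (insert s (W ∩ Z)) k) :
    CovW G Z (W ∩ Z) k ∨ ∃ (Q : List V) (a b : V) (L : List (List V)), Seg G Q a b ∧ Q.Nodup ∧
      2 ≤ Q.length ∧ p a ∧ p b ∧ (∀ x ∈ Q, x ∈ Z) ∧ Fam G L ∧ L.length + 1 ≤ k ∧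
      (∀ x ∈ L.flatten, x ∈ Z ∧ x ∉ Q) ∧ ∀ x ∈ Z, x ∉ W → x ∈ Q ∨ x ∈ L.flatten := by
  obtain ⟨L, hk, hF, hin, hcov⟩ := h
  have hcov' : ∀ x ∈ Z, x ∉ W → x ∈ L.flatten := by
    intro x hx hxW
    refine hcov x (Finset.mem_sdiff.2 ⟨Finset.mem_insert_of_mem hx, ?_⟩)
    rw [Finset.mem_insert, Finset.mem_inter]
    rintro (h | h)
    · exact hs (h ▸ hx)
    · exact hxW h.1
  by_cases hsL : s ∈ L.flatten
  · right
    obtain ⟨c, hc, hsc⟩ := List.mem_flatten.1 hsL
    obtain ⟨L1, L2, rfl⟩ := List.append_of_mem hc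
    obtain ⟨Q, hr⟩ := rot_cons hsc
    have hcyc := (hF.cyc c hc).of_isRotated hr
    have hnod := hF.nod
    rw [List.flatten_append, List.flatten_cons] at hnod
    have hperm : (L1.flatten ++ (c ++ L2.flatten)).Perm (c ++ (L1 ++ L2).flatten) := by
      rw [List.flatten_append, ← List.append_assoc, ← List.append_assoc]
      exact List.perm_append_comm.append_right _
    have hnod2 : (c ++ (L1 ++ L2).flatten).Nodup := hperm.nodup_iff.1 hnod
    have hdisj : ∀ x ∈ (L1 ++ L2).flatten, x ∉ c := by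
      intro x hx hxc
      exact (List.nodup_append.1 hnod2).2.2 x hxc x hx rfl
    have hmemL : ∀ x, x ∈ (L1 ++ c :: L2).flatten ↔ x ∈ c ∨ x ∈ (L1 ++ L2).flatten := by
      intro x
      simp only [List.flatten_append, List.flatten_cons, List.mem_append]
      tauto
    have hcQ : ∀ x, x ∈ c ↔ x = s ∨ x ∈ Q := by
      intro x
      rw [hr.perm.mem_iff, List.mem_cons]
    have hsQ : s ∉ Q := (List.nodup_cons.1 hcyc.1).1
    have hQn : Q.Nodup := (List.nodup_cons.1 hcyc.1).2
    have hQlen : 2 ≤ Q.length := by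
      have := hcyc.2.1
      rw [List.length_cons] at this
      omega
    have hQZ : ∀ x ∈ Q, x ∈ Z := by
      intro x hx
      have := hin x ((hmemL x).2 (Or.inl ((hcQ x).2 (Or.inr hx))))
      rcases Finset.mem_insert.1 this with h | h
      · exact absurd (h ▸ hx) hsQ
      · exact h
    have hQne : Q ≠ [] := by
      rintro rfl
      simp at hQlen
    obtain ⟨a, hQa⟩ : ∃ a, Q.head? = some a := by
      rcases Q with _ | ⟨a, Q⟩
      · exact absurd rfl hQne
      · exact ⟨a, rfl⟩
    obtain ⟨b, hQb⟩ : ∃ b, Q.getLast? = some b :=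
      ⟨_, List.getLast?_eq_getLast_of_ne_nil hQne⟩
    have haQ : a ∈ Q := List.mem_of_head? hQa
    have hbQ : b ∈ Q := List.mem_of_getLast? hQb
    have hch := hcyc.2.2.1
    rw [List.isChain_cons] at hch
    have hsa : (vG G Z s p).Adj s a := hch.1 a (by rw [hQa]; rfl)
    have hbs : (vG G Z s p).Adj b s := by
      refine hcyc.2.2.2 b ?_ s (by simp)
      rw [List.getLast?_cons, hQb]
      rfl
    have has : a ≠ s := fun h => hsQ (h ▸ haQ)
    have hbs' : b ≠ s := fun h => hsQ (h ▸ hbQ)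
    refine ⟨Q, a, b, L1 ++ L2, ⟨?_, hQa, hQb⟩, hQn, hQlen, ((vG_adj_s has).1 hsa.symm).2,
      ((vG_adj_s hbs').1 hbs).2, hQZ, ⟨?_, (List.nodup_append.1 hnod2).2.1⟩, ?_, ?_, ?_⟩
    · exact vchain hch.2 hsQ
    · intro d hd
      have hd' : d ∈ L1 ++ c :: L2 := by
        rcases List.mem_append.1 hd with h | h
        · exact List.mem_append_left _ h
        · exact List.mem_append_right _ (List.mem_cons_of_mem _ h)
      refine vcyc (hF.cyc d hd') ?_
      intro hsd
      exact hdisj s (List.mem_flatten.2 ⟨d, hd, hsd⟩) hsc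
    · rw [List.length_append, List.length_cons] at hk
      rw [List.length_append]
      omega
    · intro x hx
      have hxc := hdisj x hx
      rw [hcQ] at hxc
      push Not at hxc
      refine ⟨?_, hxc.2⟩
      rcases Finset.mem_insert.1 (hin x ((hmemL x).2 (Or.inr hx))) with h | h
      · exact absurd h hxc.1
      · exact h
    · intro x hx hxW
      rcases (hmemL x).1 (hcov' x hx hxW) with h | h
      · rcases (hcQ x).1 h with h | h
        · exact absurd (h ▸ hx) hs
        · exact Or.inl h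
      · exact Or.inr h
  · left
    refine ⟨L, hk, ⟨?_, hF.nod⟩, ?_, ?_⟩
    · intro c hc
      exact vcyc (hF.cyc c hc) (fun h => hsL (List.mem_flatten.2 ⟨c, hc, h⟩))
    · intro x hx
      rcases Finset.mem_insert.1 (hin x hx) with h | h
      · exact absurd (h ▸ hx) hsL
      · exact h
    · intro x hx
      rw [Finset.mem_sdiff, Finset.mem_inter] at hx
      exact hcov' x hx.1 (fun h => hx.2 ⟨h, hx.1⟩)

open Classical in
/-- the independent set given by the induction for the component with the virtual hub -/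
theorem vhub_sum {G : SimpleGraph V} [DecidableRel G.Adj] {Z W : Finset V} {s : V} {p : V → Prop}
    (hs : s ∉ Z) {k : ℕ} (hP : PW (vG G Z s p) (insert s Z) (insert s (W ∩ Z)))
    (hno : ¬ CovW (vG G Z s p) (insert s Z) (insert s (W ∩ Z)) k) :
    ∃ I : Finset V, I ⊆ Z \ W ∧ G.IsIndepSet (I : Set V) ∧ I.card = k + 1 ∧
      ∑ v ∈ I, (dU G Z v + (if p v then 1 else 0)) ≤ Z.card := by
  obtain ⟨I, h1, h2, h3, h4⟩ := hP k hno
  have hI : ∀ x ∈ I, x ∈ Z ∧ x ∉ W := by
    intro x hx
    have h := Finset.mem_sdiff.1 (h1 hx)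
    rw [Finset.mem_insert, Finset.mem_insert, Finset.mem_inter] at h
    push Not at h
    rcases h.1 with h' | h'
    · exact absurd h' h.2.1
    · exact ⟨h', fun hw => h.2.2 hw h'⟩
  have hIs : ∀ x ∈ I, x ≠ s := fun x hx h => hs (h ▸ (hI x hx).1)
  refine ⟨I, fun x hx => Finset.mem_sdiff.2 (hI x hx), ?_, h3, ?_⟩
  · intro a ha b hb hab h
    exact h2 ha hb hab ((vG_adj (hIs a ha) (hIs b hb)).2 h)
  · rw [Finset.card_insert_of_notMem hs] at h4
    have h5 : ∑ v ∈ I, dU (vG G Z s p) (insert s Z) v =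
        ∑ v ∈ I, (dU G Z v + (if p v then 1 else 0)) :=
      Finset.sum_congr rfl (fun v hv => vhub_dU hs (hI v hv).1)
    rw [h5] at h4
    omega

/-- CASE Y: the arc `A` of the cycle `A ++ B` is closed by a cycle, the arc `B` is closed through
a path `Q` outside: together with families for the rest a cover -/
theorem vhub_close {G : SimpleGraph V} {U W : Finset V} {A B Q cA : List V} {y y' a b : V}
    (hB : Seg G B y' y) (hc : (A ++ B).Nodup) (hcA : CycL G cA) (hAA : ∀ x, x ∈ cA ↔ x ∈ A)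
    (hQ : Seg G Q a b) (hQn : Q.Nodup) (hya : G.Adj y a) (hby : G.Adj b y')
    (hQd : ∀ x ∈ Q, x ∉ A ++ B) (h3 : 3 ≤ B.length + Q.length) {L : List (List V)}
    (hL : Fam G L) (hLd : ∀ x ∈ L.flatten, x ∉ A ++ B ∧ x ∉ Q)
    (hU : ∀ x ∈ A ++ B, x ∈ U) (hU2 : ∀ x ∈ Q, x ∈ U) (hU3 : ∀ x ∈ L.flatten, x ∈ U)
    (hcov : ∀ x ∈ U, x ∉ W → x ∈ A ++ B ∨ x ∈ Q ∨ x ∈ L.flatten) :
    CovW G U W (L.length + 2) := by
  have hnA := (List.nodup_append.1 hc).1
  have hnB := (List.nodup_append.1 hc).2.1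
  have hBQ : CycL G (B ++ Q) := by
    refine close_seg hB ?_ ?_ h3
    · exact chain_ends hQ.ch hQ.hd hQ.lt hya hby
    · rw [List.nodup_append]
      refine ⟨hnB, hQn, ?_⟩
      rintro x hx z hz rfl
      exact hQd x hz (List.mem_append_right _ hx)
  refine ⟨cA :: (B ++ Q) :: L, by simp, ⟨?_, ?_⟩, ?_, ?_⟩
  · intro d hd
    rcases List.mem_cons.1 hd with rfl | hd
    · exact hcA
    rcases List.mem_cons.1 hd with rfl | hd
    · exact hBQ
    · exact hL.cyc d hd
  · rw [List.flatten_cons, List.flatten_cons, List.nodup_append]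
    refine ⟨hcA.1, ?_, ?_⟩
    · rw [List.nodup_append]
      refine ⟨hBQ.1, hL.nod, ?_⟩
      rintro x hx z hz rfl
      rcases List.mem_append.1 hx with h | h
      · exact (hLd x hz).1 (List.mem_append_right _ h)
      · exact (hLd x hz).2 h
    · rintro x hx z hz rfl
      have hxA := (hAA x).1 hx
      rcases List.mem_append.1 hz with h | h
      · rcases List.mem_append.1 h with h | h
        · exact (List.nodup_append.1 hc).2.2 x hxA x h rfl
        · exact hQd x h (List.mem_append_left _ hxA)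
      · exact (hLd x h).1 (List.mem_append_left _ hxA)
  · intro x hx
    rw [List.flatten_cons, List.flatten_cons, List.mem_append, List.mem_append,
      List.mem_append] at hx
    rcases hx with h | ⟨h | h⟩ | h
    · exact hU x (List.mem_append_left _ ((hAA x).1 h))
    · exact hU x (List.mem_append_right _ h)
    · exact hU2 x (by assumption)
    · exact hU3 x h
  · intro x hx
    rw [Finset.mem_sdiff] at hx
    rw [List.flatten_cons, List.flatten_cons, List.mem_append, List.mem_append, List.mem_append]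
    rcases hcov x hx.1 hx.2 with h | h | h
    · rcases List.mem_append.1 h with h | h
      · exact Or.inl ((hAA x).2 h)
      · exact Or.inr (Or.inl (Or.inl h))
    · exact Or.inr (Or.inl (Or.inr h))
    · exact Or.inr (Or.inr h)

end Pool.Agent.HW43
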